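import Mathlib
import Pool.Agent.R945.TP.Q1

/-! Roots of unity and quadratic residues: basic sums and products. -/

set_option autoImplicit false
set_option linter.unusedSectionVars false

namespace Pool.Agent.T6.H7.LP

open Finset Polynomial Pool.Agent.Helper184.Chapman Pool.Agent.R945 Pool.Agent.R945.TP

variable {p : ℕ} [Fact p.Prime]

lemma z_add (a b : ZMod p) : sc p (a + b) = sc p a * sc p b := AddChar.map_add_eq_mul _ _ _

lemma z_pow (r : ZMod p) (k : ℕ) : sc p r ^ k = sc p (r * k) := by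
  rw [← AddChar.map_nsmul_eq_pow, nsmul_eq_mul, mul_comm]

lemma z_zero : sc p 0 = 1 := AddChar.map_zero_eq_one _

lemma z_sum (f : ZMod p → ZMod p) (s : Finset (ZMod p)) : sc p (∑ k ∈ s, f k) = ∏ k ∈ s, sc p (f k) := by
  induction s using Finset.induction_on with
  | empty => simp
  | insert a s ha ih => rw [sum_insert ha, prod_insert ha, z_add, ih]

lemma z_one_iff (r : ZMod p) : sc p r = 1 ↔ r = 0 := sc_prim.zmod_char_eq_one_iff p r

lemma z_ne_zero (r : ZMod p) : sc p r ≠ 0 := by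
  intro h
  have h1 : sc p (r + -r) = 1 := by rw [add_neg_cancel, z_zero]
  rw [z_add, h, zero_mul] at h1
  exact zero_ne_one h1

lemma z_inj {a b : ZMod p} (h : sc p a = sc p b) : a = b := by
  have h1 : sc p (a + -b) = 1 := by
    rw [z_add, h, ← z_add, add_neg_cancel, z_zero]
  rw [z_one_iff] at h1
  linear_combination h1

lemma sum_z (r : ZMod p) : ∑ k : ZMod p, sc p (k * r) = if r = 0 then (p : ℂ) else 0 := by
  have := AddChar.sum_mulShift (R := ZMod p) (R' := ℂ) (ψ := sc p) r sc_prim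
  rw [this]
  split_ifs with h
  · rw [ZMod.card]
  · simp

lemma sum_eval (h : ℂ[X]) (hd : h.natDegree < 2 * p) :
    ∑ r : ZMod p, h.eval (sc p r) = p * (h.coeff 0 + h.coeff p) := by
  have hp : p.Prime := Fact.out
  have h1 : ∀ r : ZMod p, h.eval (sc p r) = ∑ k ∈ range (2 * p), h.coeff k * sc p (r * k) := by
    intro r
    rw [eval_eq_sum_range' hd]
    exact sum_congr rfl fun k _ => by rw [z_pow]
  simp_rw [h1]
  rw [sum_comm]
  have h2 : ∀ k ∈ range (2 * p), ∑ r : ZMod p, h.coeff k * sc p (r * k) =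
      if k = 0 ∨ k = p then h.coeff k * p else 0 := by
    intro k hk
    rw [mem_range] at hk
    rw [← mul_sum, sum_z]
    by_cases h0 : k = 0 ∨ k = p
    · rw [if_pos h0, if_pos]
      rcases h0 with rfl | rfl
      · simp
      · simp
    · rw [if_neg h0, if_neg, mul_zero]
      rw [ZMod.natCast_eq_zero_iff]
      rintro ⟨c, hc⟩
      apply h0
      have hc2 : c < 2 := by
        by_contra hcon
        have : p * 2 ≤ p * c := Nat.mul_le_mul_left _ (by omega)
        omega
      interval_cases c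
      · left; omega
      · right; omega
  rw [sum_congr rfl h2, ← sum_filter]
  have h3 : (range (2 * p)).filter (fun k => k = 0 ∨ k = p) = {0, p} := by
    ext k
    simp only [mem_filter, mem_range, mem_insert, mem_singleton]
    constructor
    · exact fun h => h.2
    · intro h
      refine ⟨?_, h⟩
      have := hp.pos
      rcases h with rfl | rfl <;> omega
  rw [h3, sum_pair hp.pos.ne]
  ring

/-- multiplication by `u` permutes the classes -/
lemma shift_prod {M : Type*} [CommMonoid M] {u : ZMod p} (hu : u ≠ 0) (c : ℤ) (f : ZMod p → M) :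
    ∏ k ∈ univ.filter (fun j : ZMod p => quadraticChar (ZMod p) j = c), f (u * k) =
      ∏ k ∈ univ.filter (fun j : ZMod p => quadraticChar (ZMod p) j = quadraticChar (ZMod p) u * c), f k := by
  have h3 : quadraticChar (ZMod p) u * quadraticChar (ZMod p) u = 1 := by
    have := quadraticChar_sq_one (F := ZMod p) hu
    rwa [sq] at this
  apply Finset.prod_bij (fun k _ => u * k)
  · intro k hk
    rw [Finset.mem_filter] at hk ⊢
    refine ⟨Finset.mem_univ _, ?_⟩
    rw [map_mul, hk.2]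
  · intro k _ l _ h; exact mul_left_cancel₀ hu h
  · intro k hk
    rw [Finset.mem_filter] at hk
    refine ⟨u⁻¹ * k, ?_, ?_⟩
    · rw [Finset.mem_filter]
      refine ⟨Finset.mem_univ _, ?_⟩
      have h4 : quadraticChar (ZMod p) (u * (u⁻¹ * k)) = quadraticChar (ZMod p) u * quadraticChar (ZMod p) (u⁻¹ * k) :=
        map_mul _ _ _
      rw [← mul_assoc, mul_inv_cancel₀ hu, one_mul, hk.2] at h4
      linear_combination (quadraticChar (ZMod p) (u⁻¹ * k)) * (-h3) + (-quadraticChar (ZMod p) u) * h4 + c * h3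
    · rw [← mul_assoc, mul_inv_cancel₀ hu, one_mul]
  · intro k _; rfl

lemma mem_Rs (r : ZMod p) : r ∈ Rs p ↔ quadraticChar (ZMod p) r = 1 := by simp [Rs]
lemma mem_Ns (r : ZMod p) : r ∈ Ns p ↔ quadraticChar (ZMod p) r = -1 := by simp [Ns]

lemma Rs_ne {r : ZMod p} (h : r ∈ Rs p) : r ≠ 0 := by
  rintro rfl
  rw [mem_Rs, MulChar.map_zero] at h
  exact zero_ne_one h

lemma Ns_ne {r : ZMod p} (h : r ∈ Ns p) : r ≠ 0 := by
  rintro rfl
  rw [mem_Ns, MulChar.map_zero] at h
  norm_num at h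

lemma RR {M : Type*} [CommMonoid M] {u : ZMod p} (hu : u ∈ Rs p) (f : ZMod p → M) :
    ∏ k ∈ Rs p, f (u * k) = ∏ k ∈ Rs p, f k := by
  have := shift_prod (Rs_ne hu) 1 f
  rw [(mem_Rs u).1 hu, mul_one] at this
  exact this

lemma RN {M : Type*} [CommMonoid M] {u : ZMod p} (hu : u ∈ Rs p) (f : ZMod p → M) :
    ∏ k ∈ Ns p, f (u * k) = ∏ k ∈ Ns p, f k := by
  have := shift_prod (Rs_ne hu) (-1) f
  rw [(mem_Rs u).1 hu, one_mul] at this
  exact this

lemma NR {M : Type*} [CommMonoid M] {u : ZMod p} (hu : u ∈ Ns p) (f : ZMod p → M) :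
    ∏ k ∈ Rs p, f (u * k) = ∏ k ∈ Ns p, f k := by
  have := shift_prod (Ns_ne hu) 1 f
  rw [(mem_Ns u).1 hu, mul_one] at this
  exact this

lemma prod_univ {M : Type*} [CommMonoid M] (f : ZMod p → M) :
    ∏ k : ZMod p, f k = f 0 * ((∏ k ∈ Rs p, f k) * ∏ k ∈ Ns p, f k) := by
  rw [← Finset.mul_prod_erase univ f (mem_univ (0 : ZMod p)), TP.erase_eq, prod_union disj]

lemma sum_univ {M : Type*} [AddCommMonoid M] (f : ZMod p → M) :
    ∑ k : ZMod p, f k = f 0 + ((∑ k ∈ Rs p, f k) + ∑ k ∈ Ns p, f k) := by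
  rw [← Finset.add_sum_erase univ f (mem_univ (0 : ZMod p)), TP.erase_eq, sum_union disj]

section
variable (m : ℕ) (hm : p = 2 * m + 1) (hm2 : 2 ≤ m)
include hm hm2

lemma p_ne_two : p ≠ 2 := by omega

lemma card_eq : (Rs p).card = m ∧ (Ns p).card = m := by
  have hp2 : ringChar (ZMod p) ≠ 2 := by rw [ZMod.ringChar_zmod_n]; omega
  have h1 := quadraticChar_sum_zero hp2
  rw [sum_univ] at h1
  have e1 : ∑ k ∈ Rs p, quadraticChar (ZMod p) k = (Rs p).card := by
    rw [sum_congr rfl (fun k hk => (mem_Rs k).1 hk)]; simp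
  have e2 : ∑ k ∈ Ns p, quadraticChar (ZMod p) k = -((Ns p).card : ℤ) := by
    rw [sum_congr rfl (fun k hk => (mem_Ns k).1 hk)]; simp
  rw [e1, e2, MulChar.map_zero] at h1
  have h2 : (univ.erase (0 : ZMod p)).card = 2 * m := LD.card_S m hm
  rw [TP.erase_eq, card_union_of_disjoint disj] at h2
  omega

lemma four_mem : (4 : ZMod p) ∈ Rs p := by
  rw [mem_Rs]
  have h2 : (2 : ZMod p) ≠ 0 := two_ne' (by omega)
  have := quadraticChar_sq_one (F := ZMod p) h2
  rw [← map_pow] at this
  rw [← this]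
  norm_num

lemma three_ne : (3 : ZMod p) ≠ 0 := by
  have hp : p.Prime := Fact.out
  intro h
  have : ((3 : ℕ) : ZMod p) = 0 := by exact_mod_cast h
  rw [ZMod.natCast_eq_zero_iff] at this
  have := (Nat.prime_dvd_prime_iff_eq hp Nat.prime_three).mp this
  omega

lemma prod_zR : ∏ k ∈ Rs p, sc p k = 1 := by
  have h1 := RR (four_mem m hm hm2) (fun k => Multiplicative.ofAdd k)
  have h2 : ∑ k ∈ Rs p, (4 : ZMod p) * k = ∑ k ∈ Rs p, k := by
    have := congrArg Multiplicative.toAdd h1
    simpa using this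
  rw [← mul_sum] at h2
  have h3 : ∑ k ∈ Rs p, k = (0 : ZMod p) := by
    have : (3 : ZMod p) * ∑ k ∈ Rs p, k = 0 := by linear_combination h2
    exact (mul_eq_zero.mp this).resolve_left (three_ne m hm hm2)
  have := z_sum (fun k : ZMod p => k) (Rs p)
  rw [← this, h3, z_zero]

lemma prod_zN : ∏ k ∈ Ns p, sc p k = 1 := by
  have h1 := RN (four_mem m hm hm2) (fun k => Multiplicative.ofAdd k)
  have h2 : ∑ k ∈ Ns p, (4 : ZMod p) * k = ∑ k ∈ Ns p, k := by
    have := congrArg Multiplicative.toAdd h1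
    simpa using this
  rw [← mul_sum] at h2
  have h3 : ∑ k ∈ Ns p, k = (0 : ZMod p) := by
    have : (3 : ZMod p) * ∑ k ∈ Ns p, k = 0 := by linear_combination h2
    exact (mul_eq_zero.mp this).resolve_left (three_ne m hm hm2)
  have := z_sum (fun k : ZMod p => k) (Ns p)
  rw [← this, h3, z_zero]

lemma prod_one_sub : ∏ k ∈ univ.erase (0 : ZMod p), (1 - sc p k) = (p : ℂ) := by
  have h4 : ∏ k ∈ univ.erase (0 : ZMod p), (1 - sc p k) =
      ∏ i ∈ Finset.range (p - 1), (1 - (sc p 1) ^ (i + 1)) := by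
    symm
    apply Finset.prod_bij (fun (i : ℕ) _ => ((i + 1 : ℕ) : ZMod p))
    · intro i hi
      rw [Finset.mem_range] at hi
      simp only [Finset.mem_erase, Finset.mem_univ, and_true]
      intro h
      rw [ZMod.natCast_eq_zero_iff] at h
      have := Nat.le_of_dvd (by omega) h
      omega
    · intro a ha b hb hab
      rw [Finset.mem_range] at ha hb
      have := congrArg ZMod.val hab
      rw [ZMod.val_natCast_of_lt (by omega), ZMod.val_natCast_of_lt (by omega)] at this
      omega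
    · intro b hb
      simp only [Finset.mem_erase, Finset.mem_univ, and_true] at hb
      have h5 : b.val ≠ 0 := by rwa [Ne, ZMod.val_eq_zero]
      have h6 := ZMod.val_lt b
      refine ⟨b.val - 1, ?_, ?_⟩
      · rw [Finset.mem_range]; omega
      · rw [show b.val - 1 + 1 = b.val by omega, ZMod.natCast_zmod_val]
    · intro i _
      rw [← AddChar.map_nsmul_eq_pow, nsmul_eq_mul, mul_one]
  rw [h4]
  have hprim : IsPrimitiveRoot (sc p 1) p := by
    rw [IsPrimitiveRoot.iff_def]
    constructor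
    · rw [← AddChar.map_nsmul_eq_pow, nsmul_eq_mul, ZMod.natCast_self, zero_mul,
        AddChar.map_zero_eq_one]
    · intro l hl
      rw [← AddChar.map_nsmul_eq_pow, nsmul_eq_mul, mul_one] at hl
      have := (sc_prim.zmod_char_eq_one_iff p _).mp hl
      rwa [ZMod.natCast_eq_zero_iff] at this
  have h5 := IsPrimitiveRoot.prod_one_sub_pow_eq_order (R := ℂ) (n := 2 * m) (μ := sc p 1)
    (by rw [← hm]; exact hprim)
  rw [show p - 1 = 2 * m by omega, h5, hm]
  push_cast
  ring

omit hm hm2 in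
/-- the product over the residues -/
noncomputable def FR (p : ℕ) [Fact p.Prime] : ℂ := ∏ k ∈ Rs p, (1 - sc p k)

omit hm hm2 in
/-- the product over the nonresidues -/
noncomputable def GN (p : ℕ) [Fact p.Prime] : ℂ := ∏ k ∈ Ns p, (1 - sc p k)

lemma FR_GN : FR p * GN p = p := by
  rw [FR, GN, ← prod_union disj, ← TP.erase_eq, prod_one_sub m hm hm2]

omit hm hm2 in
/-- the Gauss sum -/
noncomputable def ta (p : ℕ) [Fact p.Prime] : ℂ := gaussSum (chi p ℂ) (sc p)

lemma ta_sum (s : ZMod p) : ta p * chi p ℂ s = ∑ k ∈ Rs p, sc p (s * k) - ∑ k ∈ Ns p, sc p (s * k) := by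
  have h := gshift (K := ℂ) (p := p) (by omega) two_ne_zero (sc p) s
  rw [ta, mul_comm, ← h, sum_univ, MulChar.map_zero, zero_mul, zero_add, sub_eq_add_neg,
    ← sum_neg_distrib]
  congr 1
  · exact sum_congr rfl fun k hk => by rw [chi_apply, (mem_Rs k).1 hk]; simp
  · exact sum_congr rfl fun k hk => by rw [chi_apply, (mem_Ns k).1 hk]; simp

omit hm hm2 in
lemma all_sum (s : ZMod p) : ∑ k ∈ Rs p, sc p (s * k) + ∑ k ∈ Ns p, sc p (s * k) =
    (if s = 0 then (p : ℂ) else 0) - 1 := by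
  have h := sum_z s
  rw [sum_univ, zero_mul, z_zero] at h
  rw [← h]
  simp only [mul_comm s]
  ring

/-- `τ χ(s) = 2 ∑_R ζ^(sr) + 1 - p [s = 0]` -/
lemma two_sum (s : ZMod p) : ta p * chi p ℂ s = 2 * ∑ k ∈ Rs p, sc p (s * k) + 1 -
    (if s = 0 then (p : ℂ) else 0) := by
  have h1 := ta_sum m hm hm2 s
  have h2 := all_sum (p := p) s
  rw [h1]
  linear_combination -h2

end

end Pool.Agent.T6.H7.LP
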