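import Mathlib
import Pool.Agent.T6.H7.LP.A

/-! Sums over the residues of the polynomial of the nonresidues. -/

set_option autoImplicit false
set_option linter.unusedSectionVars false

namespace Pool.Agent.T6.H7.LP

open Finset Polynomial Pool.Agent.Helper184.Chapman Pool.Agent.R945 Pool.Agent.R945.TP

variable {p : ℕ} [Fact p.Prime]

/-- the polynomial whose roots are the `ζ^k` with `k` a nonresidue -/
noncomputable def gN (p : ℕ) [Fact p.Prime] : ℂ[X] := ∏ k ∈ Ns p, (X - C (sc p k))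

lemma gN_monic : (gN p).Monic := monic_prod_of_monic _ _ fun _ _ => monic_X_sub_C _

lemma gN_eval_N {k : ZMod p} (hk : k ∈ Ns p) : (gN p).eval (sc p k) = 0 := by
  rw [gN, eval_prod]
  exact prod_eq_zero hk (by simp)

lemma gN_eval_one : (gN p).eval 1 = GN p := by
  rw [gN, eval_prod, GN]
  simp

/-- sum over the residues of `h g` -/
lemma sum_R_mul (h : ℂ[X]) (hd : (h * gN p).natDegree < 2 * p) :
    ∑ k ∈ Rs p, (h * gN p).eval (sc p k) =
      p * ((h * gN p).coeff 0 + (h * gN p).coeff p) - h.eval 1 * GN p := by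
  have h1 := sum_eval (h * gN p) hd
  rw [sum_univ] at h1
  have h2 : ∑ k ∈ Ns p, (h * gN p).eval (sc p k) = 0 := by
    apply sum_eq_zero
    intro k hk
    rw [eval_mul, gN_eval_N hk, mul_zero]
  have h3 : (h * gN p).eval (sc p 0) = h.eval 1 * GN p := by
    rw [z_zero, eval_mul, gN_eval_one]
  rw [h2, add_zero, h3] at h1
  rw [← h1]; ring

section
variable (m : ℕ) (hm : p = 2 * m + 1) (hm2 : 2 ≤ m)
include hm hm2

lemma gN_deg : (gN p).natDegree = m := by
  rw [gN, natDegree_prod_of_monic _ _ fun k _ => monic_X_sub_C _]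
  simp [(card_eq m hm hm2).2]

lemma gN_zero : (gN p).coeff 0 = (-1) ^ m := by
  rw [coeff_zero_eq_eval_zero, gN, eval_prod]
  have : ∀ k ∈ Ns p, (X - C (sc p k) : ℂ[X]).eval 0 = (-1) * sc p k := by
    intro k _; simp
  rw [prod_congr rfl this, prod_mul_distrib, prod_const, (card_eq m hm hm2).2, prod_zN m hm hm2, mul_one]

lemma sum_zN : ∑ k ∈ Ns p, sc p k = (-1 - ta p) / 2 := by
  have h1 := ta_sum m hm hm2 1
  have h2 := all_sum (p := p) 1
  rw [map_one, mul_one] at h1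
  simp only [one_mul] at h1 h2
  rw [if_neg one_ne_zero] at h2
  rw [h1]
  linear_combination (1 / 2 : ℂ) * h2

lemma gN2_next : ((gN p) ^ 2).coeff (2 * m - 1) = 1 + ta p := by
  have h1 : ((gN p) ^ 2).natDegree = 2 * m := by
    rw [gN_monic.natDegree_pow, gN_deg m hm hm2]
  have h2 : ((gN p) ^ 2).nextCoeff = ((gN p) ^ 2).coeff (2 * m - 1) := by
    rw [nextCoeff_of_natDegree_pos (by rw [h1]; omega), h1]
  rw [← h2, gN_monic.nextCoeff_pow, gN, prod_X_sub_C_nextCoeff, sum_zN m hm hm2]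
  simp
  ring

lemma gN2_top : ((gN p) ^ 2).coeff (2 * m) = 1 := by
  have h1 : ((gN p) ^ 2).natDegree = 2 * m := by
    rw [gN_monic.natDegree_pow, gN_deg m hm hm2]
  rw [← h1]
  exact (gN_monic.pow 2).coeff_natDegree

lemma gN2_zero : ((gN p) ^ 2).coeff 0 = 1 := by
  rw [sq, mul_coeff_zero, gN_zero m hm hm2, ← mul_pow]
  simp

lemma gN2_large : ((gN p) ^ 2).coeff p = 0 := by
  apply coeff_eq_zero_of_natDegree_lt
  rw [gN_monic.natDegree_pow, gN_deg m hm hm2]
  omega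

/-- `∑_R g(ζ)^2` -/
lemma S0 : ∑ k ∈ Rs p, (gN p).eval (sc p k) ^ 2 = p - GN p ^ 2 := by
  have hdeg : (gN p * gN p).natDegree = 2 * m := by
    rw [gN_monic.natDegree_mul gN_monic, gN_deg m hm hm2]; ring
  have h := sum_R_mul (gN p) (by rw [hdeg]; omega)
  have e : gN p * gN p = (gN p) ^ 2 := by ring
  rw [e, gN2_zero m hm hm2, gN2_large m hm hm2, gN_eval_one] at h
  simp only [eval_pow] at h
  rw [h]; ring

/-- `∑_R g(ζ)^2 ζ` -/
lemma S1 : ∑ k ∈ Rs p, (gN p).eval (sc p k) ^ 2 * sc p k = p - GN p ^ 2 := by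
  have hdeg : (X * gN p * gN p).natDegree = 2 * m + 1 := by
    rw [((monic_X).mul gN_monic).natDegree_mul gN_monic, (monic_X).natDegree_mul gN_monic,
      gN_deg m hm hm2, natDegree_X]; ring
  have h := sum_R_mul (X * gN p) (by rw [hdeg]; omega)
  have e : X * gN p * gN p = X * (gN p) ^ 2 := by ring
  have hp : p = 2 * m + 1 := hm
  have e2 : (X * (gN p) ^ 2).coeff p = 1 := by
    have h3 : ∀ n, n = 2 * m + 1 → (X * (gN p) ^ 2).coeff n = 1 := by
      rintro n rfl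
      rw [coeff_X_mul]
      exact gN2_top m hm hm2
    exact h3 p hm
  rw [e, e2, mul_coeff_zero, coeff_X_zero, zero_mul, eval_mul, eval_X, gN_eval_one] at h
  simp only [eval_pow, eval_mul, eval_X] at h
  have e3 : ∑ k ∈ Rs p, (gN p).eval (sc p k) ^ 2 * sc p k = ∑ k ∈ Rs p, sc p k * (gN p).eval (sc p k) ^ 2 :=
    sum_congr rfl fun k _ => by ring
  rw [e3, h]; ring

/-- `∑_R g(ζ)^2 ζ^2` -/
lemma S2 : ∑ k ∈ Rs p, (gN p).eval (sc p k) ^ 2 * sc p k ^ 2 = p * (1 + ta p) - GN p ^ 2 := by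
  have hX2 : (X ^ 2 : ℂ[X]).Monic := monic_X_pow 2
  have hdeg : (X ^ 2 * gN p * gN p).natDegree = 2 * m + 2 := by
    rw [(hX2.mul gN_monic).natDegree_mul gN_monic, hX2.natDegree_mul gN_monic,
      gN_deg m hm hm2, natDegree_X_pow]; ring
  have h := sum_R_mul (X ^ 2 * gN p) (by rw [hdeg]; omega)
  have e : X ^ 2 * gN p * gN p = X ^ 2 * (gN p) ^ 2 := by ring
  have e2 : (X ^ 2 * (gN p) ^ 2).coeff p = 1 + ta p := by
    rw [coeff_X_pow_mul', if_pos (by omega)]
    have := gN2_next m hm hm2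
    rw [← this]
    congr 1
    omega
  have e0 : (X ^ 2 * (gN p) ^ 2).coeff 0 = 0 := by
    rw [coeff_X_pow_mul', if_neg (by omega)]
  rw [e, e2, e0, eval_mul, eval_pow, eval_X, gN_eval_one] at h
  simp only [eval_pow, eval_mul, eval_X] at h
  have e3 : ∑ k ∈ Rs p, (gN p).eval (sc p k) ^ 2 * sc p k ^ 2 = ∑ k ∈ Rs p, sc p k ^ 2 * (gN p).eval (sc p k) ^ 2 :=
    sum_congr rfl fun k _ => by ring
  rw [e3, h]; ring

/-- `∑_R g(ζ) ζ^(j+1)` -/
lemma L1 (j : ℕ) (hj : j < m) :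
    ∑ k ∈ Rs p, (gN p).eval (sc p k) * sc p k * sc p k ^ j = - GN p := by
  have hX : (X ^ (j + 1) : ℂ[X]).Monic := monic_X_pow _
  have hdeg : (X ^ (j + 1) * gN p).natDegree = j + 1 + m := by
    rw [hX.natDegree_mul gN_monic, gN_deg m hm hm2, natDegree_X_pow]
  have h := sum_R_mul (X ^ (j + 1)) (by rw [hdeg]; omega)
  have e0 : (X ^ (j + 1) * gN p).coeff 0 = 0 := by
    rw [coeff_X_pow_mul', if_neg (by omega)]
  have e1 : (X ^ (j + 1) * gN p).coeff p = 0 := by
    apply coeff_eq_zero_of_natDegree_lt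
    rw [hdeg]; omega
  rw [e0, e1] at h
  simp only [eval_pow, eval_mul, eval_X] at h
  have e3 : ∑ k ∈ Rs p, (gN p).eval (sc p k) * sc p k * sc p k ^ j =
      ∑ k ∈ Rs p, sc p k ^ (j + 1) * (gN p).eval (sc p k) :=
    sum_congr rfl fun k _ => by ring
  rw [e3, h]; simp

/-- `∑_R g(ζ) (ζ - 1) ζ^j` -/
lemma L0 (j : ℕ) (hj : j < m) :
    ∑ k ∈ Rs p, (gN p).eval (sc p k) * (sc p k - 1) * sc p k ^ j = if j = 0 then -(p : ℂ) * (-1) ^ m else 0 := by
  have h1 := L1 m hm hm2 j hj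
  have hX : (X ^ j : ℂ[X]).Monic := monic_X_pow _
  have hdeg : (X ^ j * gN p).natDegree = j + m := by
    rw [hX.natDegree_mul gN_monic, gN_deg m hm hm2, natDegree_X_pow]
  have h := sum_R_mul (X ^ j) (by rw [hdeg]; omega)
  have e0 : (X ^ j * gN p).coeff 0 = if j = 0 then (-1) ^ m else 0 := by
    rw [coeff_X_pow_mul']
    by_cases h0 : j = 0
    · subst h0
      simp [gN_zero m hm hm2]
    · rw [if_neg (by omega), if_neg h0]
  have e1 : (X ^ j * gN p).coeff p = 0 := by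
    apply coeff_eq_zero_of_natDegree_lt
    rw [hdeg]; omega
  rw [e0, e1] at h
  simp only [eval_pow, eval_mul, eval_X] at h
  have e3 : ∑ k ∈ Rs p, (gN p).eval (sc p k) * (sc p k - 1) * sc p k ^ j =
      ∑ k ∈ Rs p, (gN p).eval (sc p k) * sc p k * sc p k ^ j -
      ∑ k ∈ Rs p, sc p k ^ j * (gN p).eval (sc p k) := by
    rw [← sum_sub_distrib]
    exact sum_congr rfl fun k _ => by ring
  rw [e3, h, h1]
  split_ifs
  · simp
    ring
  · simp

end

end Pool.Agent.T6.H7.LP
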