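import Mathlib
import Pool.Agent.T6.H7.LP.B

/-! The determinant of `[χ(j+k) + x]` of order `(p-1)/2` in terms of a Vandermonde determinant. -/

set_option autoImplicit false
set_option linter.unusedSectionVars false

namespace Pool.Agent.T6.H7.LP

open Finset Polynomial Matrix Pool.Agent.Helper184.Chapman Pool.Agent.R945 Pool.Agent.R945.TP

variable {p : ℕ} [Fact p.Prime]

/-- the matrix `χ(j+k) + x` -/
noncomputable def HX (p : ℕ) [Fact p.Prime] (n : ℕ) (x : ℂ) : Matrix (Fin n) (Fin n) ℂ :=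
  Matrix.of fun j k => chi p ℂ ((((j : ℕ) : ZMod p)) + ((k : ℕ) : ZMod p)) + x

section
variable (m : ℕ) (hm : p = 2 * m + 1) (hm2 : 2 ≤ m)
include hm hm2

omit hm hm2 in
/-- first vector -/
noncomputable def y1 (p : ℕ) [Fact p.Prime] (k : ZMod p) : ℂ :=
  -(FR p / p) * ((gN p).eval (sc p k) * sc p k)

omit hm hm2 in
/-- second vector -/
noncomputable def y0 (p m : ℕ) [Fact p.Prime] (k : ZMod p) : ℂ :=
  -((-1) ^ m / p) * ((gN p).eval (sc p k) * (sc p k - 1))

omit hm hm2 in
lemma pC : (p : ℂ) ≠ 0 := by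
  have hp : p.Prime := Fact.out
  exact_mod_cast hp.ne_zero

lemma y1_sum (j : ℕ) (hj : j < m) : ∑ k ∈ Rs p, sc p k ^ j * y1 p k = 1 := by
  have h := L1 m hm hm2 j hj
  have e : ∑ k ∈ Rs p, sc p k ^ j * y1 p k = -(FR p / p) * ∑ k ∈ Rs p, (gN p).eval (sc p k) * sc p k * sc p k ^ j := by
    rw [mul_sum]
    exact sum_congr rfl fun k _ => by rw [y1]; ring
  have h2 := FR_GN m hm hm2
  have h3 := pC (p := p)
  rw [e, h]
  field_simp
  linear_combination h2

lemma y0_sum (j : ℕ) (hj : j < m) : ∑ k ∈ Rs p, sc p k ^ j * y0 p m k = if j = 0 then 1 else 0 := by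
  have h := L0 m hm hm2 j hj
  have e : ∑ k ∈ Rs p, sc p k ^ j * y0 p m k = -((-1) ^ m / p) * ∑ k ∈ Rs p, (gN p).eval (sc p k) * (sc p k - 1) * sc p k ^ j := by
    rw [mul_sum]
    exact sum_congr rfl fun k _ => by rw [y0]; ring
  have h3 := pC (p := p)
  have h4 : ((-1 : ℂ) ^ m) * (-1) ^ m = 1 := by rw [← mul_pow]; simp
  rw [e, h]
  split_ifs
  · field_simp
    linear_combination h4
  · simp

lemma Y11 : ∑ k ∈ Rs p, y1 p k * y1 p k = FR p ^ 2 * (1 + ta p) / p - 1 := by
  have h := S2 m hm hm2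
  have e : ∑ k ∈ Rs p, y1 p k * y1 p k = (FR p / p) ^ 2 * ∑ k ∈ Rs p, (gN p).eval (sc p k) ^ 2 * sc p k ^ 2 := by
    rw [mul_sum]
    exact sum_congr rfl fun k _ => by rw [y1]; ring
  have h2 := FR_GN m hm hm2
  have h3 := pC (p := p)
  rw [e, h]
  field_simp
  linear_combination (-(FR p * GN p + p)) * h2

lemma Y01 : ∑ k ∈ Rs p, y1 p k * y0 p m k = (-1) ^ m * FR p * ta p / p := by
  have h := S2 m hm hm2
  have h' := S1 m hm hm2
  have e : ∑ k ∈ Rs p, y1 p k * y0 p m k = ((-1) ^ m * FR p / p ^ 2) *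
      (∑ k ∈ Rs p, (gN p).eval (sc p k) ^ 2 * sc p k ^ 2 - ∑ k ∈ Rs p, (gN p).eval (sc p k) ^ 2 * sc p k) := by
    rw [← sum_sub_distrib, mul_sum]
    exact sum_congr rfl fun k _ => by rw [y1, y0]; ring
  have h3 := pC (p := p)
  rw [e, h, h']
  field_simp
  ring

lemma Y00 : ∑ k ∈ Rs p, y0 p m k * y0 p m k = ta p / p := by
  have h := S2 m hm hm2
  have h' := S1 m hm hm2
  have h'' := S0 m hm hm2
  have h4 : ((-1 : ℂ) ^ m) * (-1) ^ m = 1 := by rw [← mul_pow]; simp
  have e : ∑ k ∈ Rs p, y0 p m k * y0 p m k = (((-1) ^ m * (-1) ^ m) / p ^ 2) *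
      (∑ k ∈ Rs p, (gN p).eval (sc p k) ^ 2 * sc p k ^ 2 - 2 * ∑ k ∈ Rs p, (gN p).eval (sc p k) ^ 2 * sc p k
        + ∑ k ∈ Rs p, (gN p).eval (sc p k) ^ 2) := by
    rw [mul_sum, ← sum_sub_distrib, ← sum_add_distrib, mul_sum]
    exact sum_congr rfl fun k _ => by rw [y0]; ring
  have h3 := pC (p := p)
  rw [e, h, h', h'', h4]
  field_simp
  ring

omit hm2 hm in
/-- enumeration of the residues -/
noncomputable def en (h : (Rs p).card = m) : Fin m ≃ (Rs p : Finset (ZMod p)) :=
  ((Rs p).equivFinOfCardEq h).symm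

omit hm2 hm in
lemma en_sum {M : Type*} [AddCommMonoid M] (h : (Rs p).card = m) (f : ZMod p → M) :
    ∑ i : Fin m, f (en m h i) = ∑ k ∈ Rs p, f k := by
  rw [Equiv.sum_comp (en m h) (fun k => f k)]
  exact Finset.sum_coe_sort (Rs p) f

omit hm2 hm in
lemma en_prod {M : Type*} [CommMonoid M] (h : (Rs p).card = m) (f : ZMod p → M) :
    ∏ i : Fin m, f (en m h i) = ∏ k ∈ Rs p, f k := by
  rw [Equiv.prod_comp (en m h) (fun k => f k)]
  exact Finset.prod_coe_sort (Rs p) f

omit hm2 hm in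
/-- the Vandermonde matrix -/
noncomputable def VV (h : (Rs p).card = m) : Matrix (Fin m) (Fin m) ℂ :=
  Matrix.vandermonde fun i => sc p (en m h i)

theorem det_formula (h : (Rs p).card = m) (x : ℂ) :
    ta p ^ m * (HX p m x).det = (VV m h).det ^ 2 * (2 ^ m *
      ((1 + (1 + ta p * x) * (FR p ^ 2 * (1 + ta p) / p - 1) / 2) * (1 - ta p / 2) +
        (1 + ta p * x) * FR p ^ 2 * ta p ^ 2 / (4 * p))) := by
  set U : Matrix (Fin m) (Fin 2) ℂ := Matrix.of fun i c => if c = 0 then y1 p (en m h i) else y0 p m (en m h i) with hU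
  set W : Matrix (Fin 2) (Fin m) ℂ := Matrix.of fun c i =>
    if c = 0 then (1 + ta p * x) * y1 p (en m h i) else -p * y0 p m (en m h i) with hW
  set A : Matrix (Fin m) (Fin m) ℂ := 1 + ((1 / 2 : ℂ) • U) * W with hA
  have key : ta p • HX p m x = (VV m h)ᵀ * ((2 : ℂ) • A) * VV m h := by
    have e1 : (VV m h)ᵀ * ((2 : ℂ) • A) * VV m h = (2 : ℂ) • ((VV m h)ᵀ * VV m h) +
        ((VV m h)ᵀ * U) * (W * VV m h) := by
      rw [hA]
      simp only [smul_add, Matrix.mul_add, Matrix.add_mul, Matrix.smul_mul, Matrix.mul_smul, smul_smul,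
        Matrix.mul_one, Matrix.mul_assoc]
      norm_num
    rw [e1]
    ext j k
    have t1 : ((VV m h)ᵀ * VV m h) j k = ∑ r ∈ Rs p, sc p ((((j : ℕ) : ZMod p) + ((k : ℕ) : ZMod p)) * r) := by
      rw [Matrix.mul_apply, ← en_sum m h]
      refine sum_congr rfl fun i _ => ?_
      rw [Matrix.transpose_apply, VV, Matrix.vandermonde_apply, Matrix.vandermonde_apply, ← pow_add, z_pow]
      congr 1
      push_cast
      ring
    have t2 : ∀ c : Fin 2, ((VV m h)ᵀ * U) j c = if c = 0 then 1 else (if (j : ℕ) = 0 then 1 else 0) := by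
      intro c
      rw [Matrix.mul_apply]
      fin_cases c
      · have := y1_sum m hm hm2 j j.2
        rw [← en_sum m h (fun k => sc p k ^ (j : ℕ) * y1 p k)] at this
        simpa [VV, Matrix.vandermonde_apply, hU] using this
      · have := y0_sum m hm hm2 j j.2
        rw [← en_sum m h (fun k => sc p k ^ (j : ℕ) * y0 p m k)] at this
        simpa [VV, Matrix.vandermonde_apply, hU] using this
    have t3 : ∀ c : Fin 2, (W * VV m h) c k = if c = 0 then (1 + ta p * x) else (if (k : ℕ) = 0 then -(p : ℂ) else 0) := by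
      intro c
      rw [Matrix.mul_apply]
      fin_cases c
      · have := y1_sum m hm hm2 k k.2
        rw [← en_sum m h (fun r => sc p r ^ (k : ℕ) * y1 p r)] at this
        have h2 : ∑ i, W 0 i * VV m h i k = (1 + ta p * x) * ∑ i : Fin m, sc p (en m h i) ^ (k : ℕ) * y1 p (en m h i) := by
          rw [mul_sum]
          refine sum_congr rfl fun i _ => ?_
          simp only [hW, VV, Matrix.vandermonde_apply, Matrix.of_apply, if_true]
          ring
        simp only [Fin.zero_eta, if_true]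
        rw [h2, this, mul_one]
      · have := y0_sum m hm hm2 k k.2
        rw [← en_sum m h (fun r => sc p r ^ (k : ℕ) * y0 p m r)] at this
        have h2 : ∑ i, W 1 i * VV m h i k = -(p : ℂ) * ∑ i : Fin m, sc p (en m h i) ^ (k : ℕ) * y0 p m (en m h i) := by
          rw [mul_sum]
          refine sum_congr rfl fun i _ => ?_
          simp only [hW, VV, Matrix.vandermonde_apply, Matrix.of_apply]
          rw [if_neg (by decide : ¬ ((1 : Fin 2) = 0))]
          ring
        simp only [Fin.mk_one, Fin.isValue, one_ne_zero, if_false]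
        rw [h2, this]
        split_ifs <;> simp
    rw [Matrix.add_apply, Matrix.smul_apply, Matrix.smul_apply, t1, Matrix.mul_apply, Fin.sum_univ_two,
      t2, t2, t3, t3, if_pos rfl, if_pos rfl, if_neg (by decide : ¬ ((1 : Fin 2) = 0)),
      if_neg (by decide : ¬ ((1 : Fin 2) = 0))]
    rw [HX, Matrix.of_apply, smul_eq_mul, smul_eq_mul, mul_add, two_sum m hm hm2]
    have hz : (((j : ℕ) : ZMod p) + ((k : ℕ) : ZMod p) = 0) ↔ ((j : ℕ) = 0 ∧ (k : ℕ) = 0) := by
      rw [← Nat.cast_add, ZMod.natCast_eq_zero_iff]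
      constructor
      · intro hd
        have hj := j.2
        have hk := k.2
        rcases Nat.eq_zero_or_pos ((j : ℕ) + (k : ℕ)) with h0 | h0
        · omega
        · have := Nat.le_of_dvd h0 hd
          omega
      · rintro ⟨h1, h2⟩
        rw [h1, h2]
        simp
    by_cases hj : (j : ℕ) = 0
    · by_cases hk : (k : ℕ) = 0
      · rw [if_pos (hz.2 ⟨hj, hk⟩), if_pos hj, if_pos hk]; ring
      · rw [if_neg (fun h0 => hk (hz.1 h0).2), if_pos hj, if_neg hk]; ring
    · rw [if_neg (fun h0 => hj (hz.1 h0).1), if_neg hj]; ring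
  have hdet := congrArg Matrix.det key
  rw [Matrix.det_smul, Matrix.det_mul, Matrix.det_mul, Matrix.det_transpose, Matrix.det_smul,
    Fintype.card_fin, hA, Matrix.det_one_add_mul_comm, Matrix.det_fin_two] at hdet
  have hWU : ∀ c d : Fin 2, (W * ((1 / 2 : ℂ) • U)) c d = (1 / 2 : ℂ) * ∑ i, W c i * U i d := by
    intro c d
    rw [Matrix.mul_apply, mul_sum]
    refine sum_congr rfl fun i _ => ?_
    rw [Matrix.smul_apply, smul_eq_mul]; ring
  have s11 : ∑ i, W 0 i * U i 0 = (1 + ta p * x) * (FR p ^ 2 * (1 + ta p) / p - 1) := by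
    rw [← Y11 m hm hm2, ← en_sum m h (fun k => y1 p k * y1 p k), mul_sum]
    refine sum_congr rfl fun i _ => ?_
    simp only [hW, hU, Matrix.of_apply, if_true]; ring
  have s10 : ∑ i, W 0 i * U i 1 = (1 + ta p * x) * ((-1) ^ m * FR p * ta p / p) := by
    rw [← Y01 m hm hm2, ← en_sum m h (fun k => y1 p k * y0 p m k), mul_sum]
    refine sum_congr rfl fun i _ => ?_
    simp only [hW, hU, Matrix.of_apply, if_true]
    rw [if_neg (by decide : ¬ ((1 : Fin 2) = 0))]; ring
  have s01 : ∑ i, W 1 i * U i 0 = -(p : ℂ) * ((-1) ^ m * FR p * ta p / p) := by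
    rw [← Y01 m hm hm2, ← en_sum m h (fun k => y1 p k * y0 p m k), mul_sum]
    refine sum_congr rfl fun i _ => ?_
    simp only [hW, hU, Matrix.of_apply, if_true]
    rw [if_neg (by decide : ¬ ((1 : Fin 2) = 0))]; ring
  have s00 : ∑ i, W 1 i * U i 1 = -(p : ℂ) * (ta p / p) := by
    rw [← Y00 m hm hm2, ← en_sum m h (fun k => y0 p m k * y0 p m k), mul_sum]
    refine sum_congr rfl fun i _ => ?_
    simp only [hW, hU, Matrix.of_apply]
    rw [if_neg (by decide : ¬ ((1 : Fin 2) = 0)), if_neg (by decide : ¬ ((1 : Fin 2) = 0))]; ring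
  simp only [Matrix.add_apply, hWU, s11, s10, s01, s00, Matrix.one_apply_eq,
    Matrix.one_apply_ne (by decide : (0 : Fin 2) ≠ 1), Matrix.one_apply_ne (by decide : (1 : Fin 2) ≠ 0)] at hdet
  rw [hdet]
  have h4 : ((-1 : ℂ) ^ m) * (-1) ^ m = 1 := by rw [← mul_pow]; simp
  have h3 := pC (p := p)
  field_simp
  linear_combination (4 * (VV m h).det ^ 2 * FR p ^ 2 * ta p ^ 2 * (1 + ta p * x)) * h4

end

end Pool.Agent.T6.H7.LP
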