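import Mathlib
import Pool.Agent.T6.H7.LP.C

/-! The square of the Vandermonde determinant of the `ζ^r`, `r` a quadratic residue. -/

set_option autoImplicit false
set_option linter.unusedSectionVars false

namespace Pool.Agent.T6.H7.LP

open Finset Polynomial Matrix Pool.Agent.Helper184.Chapman Pool.Agent.R945 Pool.Agent.R945.TP

variable {p : ℕ} [Fact p.Prime]

lemma sgn (m : ℕ) : ∏ i : Fin m, ∏ _j ∈ Ioi i, (-1 : ℂ) = (-1) ^ (m * (m - 1) / 2) := by
  simp only [prod_const, Fin.card_Ioi]
  rw [Finset.prod_pow_eq_pow_sum]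
  congr 1
  rw [Fin.sum_univ_eq_sum_range (fun i => m - 1 - i) m, Finset.sum_range_reflect (fun i => i) m,
    Finset.sum_range_id]

section
variable (m : ℕ) (hm : p = 2 * m + 1) (hm2 : 2 ≤ m)

lemma det_sq_aux (v : Fin m → ℂ) : (Matrix.vandermonde v).det ^ 2 =
    (-1) ^ (m * (m - 1) / 2) * ∏ i : Fin m, ∏ j ∈ {i}ᶜ, (v i - v j) := by
  rw [← Finset.prod_prod_Ioi_mul_eq_prod_prod_off_diag (fun j i => v i - v j), ← sgn,
    Matrix.det_vandermonde, ← prod_mul_distrib, ← prod_pow]
  refine prod_congr rfl fun i _ => ?_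
  rw [← prod_mul_distrib, ← prod_pow]
  refine prod_congr rfl fun j _ => ?_
  ring

include hm in
lemma prod_diff (r : ZMod p) (hm2 : 2 ≤ m) : ∏ k ∈ univ.erase r, (sc p r - sc p k) = p * sc p r ^ (p - 1) := by
  have h1 : ∏ k ∈ univ.erase r, (sc p r - sc p k) = ∏ u ∈ univ.erase (0 : ZMod p), (sc p r * (1 - sc p u)) := by
    apply Finset.prod_bij (fun k _ => k - r)
    · intro k hk
      simp only [mem_erase, mem_univ, and_true] at hk ⊢
      exact sub_ne_zero.2 hk
    · intro a _ b _ hab
      linear_combination hab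
    · intro u hu
      simp only [mem_erase, mem_univ, and_true] at hu
      refine ⟨u + r, ?_, by ring⟩
      simp only [mem_erase, mem_univ, and_true]
      intro h
      exact hu (by linear_combination h)
    · intro k _
      rw [mul_sub, mul_one, ← z_add]
      congr 2
      ring
  rw [h1, prod_mul_distrib, prod_const, prod_one_sub m hm hm2, card_erase_of_mem (mem_univ _),
    Finset.card_univ, ZMod.card]
  ring

/-- the resultant -/
noncomputable def Res (p : ℕ) [Fact p.Prime] : ℂ := ∏ r ∈ Rs p, ∏ s ∈ Ns p, (sc p r - sc p s)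

include hm hm2

lemma one_not_mem_Ns : (1 : ZMod p) ∉ Ns p := by
  rw [mem_Ns, map_one]; norm_num

lemma det_sq (h : (Rs p).card = m) :
    (-1) ^ (m * (m - 1) / 2) * (VV m h).det ^ 2 * ((-1) ^ m * FR p) * Res p = (p : ℂ) ^ m := by
  have hs : ((-1 : ℂ) ^ (m * (m - 1) / 2)) * (-1) ^ (m * (m - 1) / 2) = 1 := by rw [← mul_pow]; simp
  have h1 : ∏ i : Fin m, ∏ j ∈ {i}ᶜ, (sc p (en m h i) - sc p (en m h j)) =
      ∏ r ∈ Rs p, ∏ k ∈ (Rs p).erase r, (sc p r - sc p k) := by
    rw [← en_prod m h]
    refine prod_congr rfl fun i _ => ?_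
    apply Finset.prod_bij (fun j _ => ((en m h j : (Rs p : Finset (ZMod p))) : ZMod p))
    · intro j hj
      rw [mem_compl, mem_singleton] at hj
      rw [mem_erase]
      refine ⟨fun h0 => hj ?_, (en m h j).2⟩
      exact (en m h).injective (Subtype.ext h0)
    · intro a _ b _ hab
      exact (en m h).injective (Subtype.ext hab)
    · intro k hk
      rw [mem_erase] at hk
      obtain ⟨j, hj⟩ := (en m h).surjective ⟨k, hk.2⟩
      refine ⟨j, ?_, by rw [hj]⟩
      rw [mem_compl, mem_singleton]
      rintro rfl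
      apply hk.1
      rw [hj]
    · intro j _; rfl
  have h2 : (∏ r ∈ Rs p, ∏ k ∈ (Rs p).erase r, (sc p r - sc p k)) * ((-1) ^ m * FR p) * Res p = (p : ℂ) ^ m := by
    have e1 : (-1) ^ m * FR p = ∏ r ∈ Rs p, (sc p r - 1) := by
      rw [FR, ← h, ← prod_const, ← prod_mul_distrib]
      exact prod_congr rfl fun k _ => by ring
    rw [e1, Res, ← prod_mul_distrib, ← prod_mul_distrib]
    have e2 : ∀ r ∈ Rs p, (∏ k ∈ (Rs p).erase r, (sc p r - sc p k)) * (sc p r - 1) *
        ∏ s ∈ Ns p, (sc p r - sc p s) = p * sc p r ^ (p - 1) := by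
      intro r hr
      rw [← prod_diff m hm r hm2]
      have hr0 := Rs_ne hr
      have hd : univ.erase r = insert 0 ((Rs p).erase r ∪ Ns p) := by
        ext k
        simp only [mem_erase, mem_univ, and_true, mem_insert, mem_union]
        constructor
        · intro hk
          by_cases hk0 : k = 0
          · left; exact hk0
          · right
            have : k ∈ univ.erase (0 : ZMod p) := by simp [hk0]
            rw [TP.erase_eq, mem_union] at this
            rcases this with h3 | h3
            · left; exact ⟨hk, h3⟩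
            · right; exact h3
        · rintro (rfl | ⟨h3, _⟩ | h3)
          · exact hr0.symm
          · exact h3
          · rintro rfl
            exact Finset.disjoint_left.1 disj hr h3
      have h0 : (0 : ZMod p) ∉ (Rs p).erase r ∪ Ns p := by
        rw [mem_union, mem_erase]
        rintro (⟨_, h3⟩ | h3)
        · exact Rs_ne h3 rfl
        · exact Ns_ne h3 rfl
      have hdj : Disjoint ((Rs p).erase r) (Ns p) := disj.mono_left (erase_subset _ _)
      rw [hd, prod_insert h0, prod_union hdj, z_zero]
      ring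
    rw [prod_congr rfl e2, prod_mul_distrib, prod_const, h, prod_pow, prod_zR m hm hm2, one_pow, mul_one]
  rw [VV, det_sq_aux, h1]
  linear_combination (∏ r ∈ Rs p, ∏ k ∈ (Rs p).erase r, (sc p r - sc p k)) * ((-1) ^ m * FR p) * Res p * hs + h2

lemma Res_eq : Res p = FR p ^ ((Ns p).filter (fun t => t - 1 ∈ Rs p)).card *
    GN p ^ ((Ns p).filter (fun t => ¬ (t - 1 ∈ Rs p))).card := by
  have h1 : Res p = ∏ t ∈ Ns p, ∏ r ∈ Rs p, (1 - sc p ((t - 1) * r)) := by
    have e1 : Res p = ∏ r ∈ Rs p, ∏ t ∈ Ns p, (sc p r - sc p (r * t)) := by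
      refine prod_congr rfl fun r hr => ?_
      exact (RN hr (fun s => sc p r - sc p s)).symm
    rw [e1, prod_comm]
    refine prod_congr rfl fun t _ => ?_
    have e2 : ∀ r ∈ Rs p, sc p r - sc p (r * t) = sc p r * (1 - sc p ((t - 1) * r)) := by
      intro r _
      rw [mul_sub, mul_one, ← z_add]
      congr 2
      ring
    rw [prod_congr rfl e2, prod_mul_distrib, prod_zR m hm hm2, one_mul]
  rw [h1]
  have h2 : ∀ t ∈ Ns p, ∏ r ∈ Rs p, (1 - sc p ((t - 1) * r)) = if t - 1 ∈ Rs p then FR p else GN p := by
    intro t ht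
    split_ifs with hc
    · exact RR hc (fun k => 1 - sc p k)
    · have hc2 : t - 1 ∈ Ns p := by
        have h0 : t - 1 ≠ 0 := by
          intro h0
          have : t = 1 := by linear_combination h0
          rw [this] at ht
          exact one_not_mem_Ns m hm hm2 ht
        have : t - 1 ∈ univ.erase (0 : ZMod p) := by simp [h0]
        rw [TP.erase_eq, mem_union] at this
        exact this.resolve_left hc
      exact NR hc2 (fun k => 1 - sc p k)
  rw [prod_congr rfl h2, prod_ite, prod_const, prod_const]

lemma counts : ((Ns p).filter (fun t => t - 1 ∈ Rs p)).card + ((Ns p).filter (fun t => ¬ (t - 1 ∈ Rs p))).card = m ∧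
    2 * (((Ns p).filter (fun t => t - 1 ∈ Rs p)).card : ℤ) - 2 * (((Ns p).filter (fun t => ¬ (t - 1 ∈ Rs p))).card : ℤ)
      = 1 - quadraticChar (ZMod p) (-1) := by
  constructor
  · rw [Finset.card_filter_add_card_filter_not, (card_eq m hm hm2).2]
  · have hp2 : ringChar (ZMod p) ≠ 2 := by rw [ZMod.ringChar_zmod_n]; omega
    have h1 : ∑ t ∈ Ns p, quadraticChar (ZMod p) (t - 1) =
        (((Ns p).filter (fun t => t - 1 ∈ Rs p)).card : ℤ) - (((Ns p).filter (fun t => ¬ (t - 1 ∈ Rs p))).card : ℤ) := by
      have e : ∀ t ∈ Ns p, quadraticChar (ZMod p) (t - 1) = if t - 1 ∈ Rs p then 1 else -1 := by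
        intro t ht
        split_ifs with hc
        · exact (mem_Rs _).1 hc
        · have hc2 : t - 1 ∈ Ns p := by
            have h0 : t - 1 ≠ 0 := by
              intro h0
              have : t = 1 := by linear_combination h0
              rw [this] at ht
              exact one_not_mem_Ns m hm hm2 ht
            have : t - 1 ∈ univ.erase (0 : ZMod p) := by simp [h0]
            rw [TP.erase_eq, mem_union] at this
            exact this.resolve_left hc
          exact (mem_Ns _).1 hc2
      rw [sum_congr rfl e, sum_ite, sum_const, sum_const]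
      simp
      ring
    have h2 := quadraticChar_sum_zero hp2
    have h2' : ∑ t : ZMod p, quadraticChar (ZMod p) (t - 1) = 0 := by
      rw [← h2]
      exact Equiv.sum_comp (Equiv.subRight (1 : ZMod p)) (fun k => quadraticChar (ZMod p) k)
    rw [sum_univ, zero_sub] at h2'
    have hχ : quadraticChar (ZMod p) ≠ 1 := quadraticChar_ne_one hp2
    have h3 := jacobiSum_nontrivial_inv hχ
    have h4 : (quadraticChar (ZMod p))⁻¹ = quadraticChar (ZMod p) := (quadraticChar_isQuadratic (ZMod p)).inv
    rw [h4, jacobiSum] at h3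
    have h5 : ∑ t : ZMod p, quadraticChar (ZMod p) t * quadraticChar (ZMod p) (t - 1) = -1 := by
      have e : ∀ t : ZMod p, quadraticChar (ZMod p) t * quadraticChar (ZMod p) (t - 1) =
          quadraticChar (ZMod p) (-1) * (quadraticChar (ZMod p) t * quadraticChar (ZMod p) (1 - t)) := by
        intro t
        have : t - 1 = (-1) * (1 - t) := by ring
        rw [this, map_mul]; ring
      rw [sum_congr rfl (fun t _ => e t), ← mul_sum, h3]
      have := quadraticChar_sq_one (F := ZMod p) (a := -1) (by simp)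
      linear_combination -this
    rw [sum_univ, MulChar.map_zero, zero_mul, zero_add] at h5
    have e1 : ∑ t ∈ Rs p, quadraticChar (ZMod p) t * quadraticChar (ZMod p) (t - 1) =
        ∑ t ∈ Rs p, quadraticChar (ZMod p) (t - 1) :=
      sum_congr rfl fun t ht => by rw [(mem_Rs t).1 ht, one_mul]
    have e2 : ∑ t ∈ Ns p, quadraticChar (ZMod p) t * quadraticChar (ZMod p) (t - 1) =
        - ∑ t ∈ Ns p, quadraticChar (ZMod p) (t - 1) := by
      rw [← sum_neg_distrib]
      exact sum_congr rfl fun t ht => by rw [(mem_Ns t).1 ht]; ring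
    rw [e1, e2] at h5
    rw [h1] at h5 h2'
    linear_combination h2' - h5

end

end Pool.Agent.T6.H7.LP
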