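import Mathlib
import Pool.Agent.T6.H7.LP.D

/-! The determinants `[χ(j+k) + x]` of order `(p-1)/2` and their four-parameter perturbations. -/

set_option autoImplicit false
set_option linter.unusedSectionVars false

namespace Pool.Agent.T6.H7.LP

open Finset Polynomial Matrix Pool.Agent.Helper184.Chapman Pool.Agent.R945 Pool.Agent.R945.TP
open NumberField Module

/-- four-parameter perturbation of a matrix with vanishing `(0,0)` entry -/
theorem four {n : ℕ} (M : Matrix (Fin (n + 1)) (Fin (n + 1)) ℂ) (h00 : M 0 0 = 0) (D0 δ : ℂ)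
    (hx : ∀ x : ℂ, (Matrix.of fun i j => M i j + x).det = D0 + δ * x) (hne : D0 ≠ 0 ∨ δ ≠ 0)
    (x y z w : ℂ) :
    (Matrix.of fun i j => M i j + x + M i 0 * y + M 0 j * z + M i 0 * M 0 j * w).det =
      D0 * ((1 + y) * (1 + z) - w * x) + δ * x := by
  obtain ⟨x0, hx0⟩ : ∃ x0 : ℂ, D0 + δ * x0 ≠ 0 := by
    by_cases h : D0 = 0
    · refine ⟨1, ?_⟩
      rw [h, zero_add, mul_one]
      exact hne.resolve_left (not_not.2 h)
    · exact ⟨0, by simpa using h⟩
  set A : Matrix (Fin (n + 1)) (Fin (n + 1)) ℂ := Matrix.of fun i j => M i j + x0 with hA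
  have hdA : A.det = D0 + δ * x0 := hx x0
  obtain ⟨c, hc⟩ := exists_solve A (by rw [hdA]; exact hx0) (fun _ => 1)
  set σ := ∑ j, c j with hσ
  set u : Fin (n + 1) → ℂ := fun i => M i 0 with hu
  set r : Fin (n + 1) → ℂ := fun j => M 0 j with hr
  set d : Fin (n + 1) → ℂ := fun j => (Pi.single (0 : Fin (n + 1)) (1 : ℂ) : Fin (n + 1) → ℂ) j - x0 * c j with hd
  have hAd : A.mulVec d = u := by
    have e : d = (Pi.single (0 : Fin (n + 1)) (1 : ℂ) : Fin (n + 1) → ℂ) - x0 • c := by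
      funext j; simp [hd]
    rw [e, Matrix.mulVec_sub, Matrix.mulVec_smul, hc]
    funext i
    simp [hA, hu]
  have hrc : ∑ j, r j * c j = 1 - x0 * σ := by
    have h1 := congrFun hc 0
    simp only [Matrix.mulVec, dotProduct, hA, Matrix.of_apply] at h1
    have h2 : ∑ j, (M 0 j + x0) * c j = ∑ j, r j * c j + x0 * σ := by
      rw [hσ, mul_sum, ← sum_add_distrib]
      exact sum_congr rfl fun j _ => by rw [hr]; ring
    rw [h2] at h1
    linear_combination h1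
  have hsd : ∑ j, d j = 1 - x0 * σ := by
    rw [hd, sum_sub_distrib, ← mul_sum, ← hσ]
    simp [Pi.single_apply]
  have hrd : ∑ j, r j * d j = - x0 * (1 - x0 * σ) := by
    have e : ∑ j, r j * d j = ∑ j, r j * (Pi.single (0 : Fin (n + 1)) (1 : ℂ) : Fin (n + 1) → ℂ) j - x0 * ∑ j, r j * c j := by
      rw [mul_sum, ← sum_sub_distrib]
      exact sum_congr rfl fun j _ => by rw [hd]; ring
    rw [e, hrc]
    simp [Pi.single_apply, hr, h00]
  have hgen := det4 A c d u r hc hAd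
  have e1 : D0 = A.det * (1 - x0 * σ) := by
    have h1 := hgen (-x0) 0 0 0
    have h2 := hx 0
    rw [mul_zero, add_zero] at h2
    rw [← h2]
    have h3 : (Matrix.of fun i j => A i j + -x0 + u i * 0 + r j * 0 + u i * r j * 0) = (Matrix.of fun i j => M i j + 0) := by
      ext i j
      simp [hA]
    rw [h3] at h1
    rw [h1]
    ring
  have e2 : δ = A.det * σ := by
    have h1 := hgen 1 0 0 0
    have h2 := hx (x0 + 1)
    have h3 : (Matrix.of fun i j => A i j + 1 + u i * 0 + r j * 0 + u i * r j * 0) = (Matrix.of fun i j => M i j + (x0 + 1)) := by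
      ext i j
      simp [hA]
      ring
    rw [h3, h2] at h1
    rw [hdA] at h1 ⊢
    linear_combination h1
  have h4 := hgen (x - x0) y z w
  have h5 : (Matrix.of fun i j => A i j + (x - x0) + u i * y + r j * z + u i * r j * w) =
      (Matrix.of fun i j => M i j + x + M i 0 * y + M 0 j * z + M i 0 * M 0 j * w) := by
    ext i j
    simp [hA, hu, hr]
  rw [h5] at h4
  rw [h4, hrc, hsd, hrd, e1, e2]
  ring

variable {p : ℕ} [Fact p.Prime]

lemma neg_mem_Rs (h1 : p % 4 = 1) (k : ZMod p) : -k ∈ Rs p ↔ k ∈ Rs p := by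
  have hq : quadraticChar (ZMod p) (-1) = 1 := by
    rw [quadraticChar_neg_one (by rw [ZMod.ringChar_zmod_n]; rintro rfl; omega), ZMod.card]
    exact ZMod.χ₄_nat_one_mod_four h1
  have : -k = (-1) * k := by ring
  rw [mem_Rs, mem_Rs, this, map_mul, hq, one_mul]

lemma FR_real (h1 : p % 4 = 1) (m : ℕ) (hm : p = 2 * m + 1) :
    FR p = ((∏ k ∈ Rs p, ‖1 - sc p k‖ : ℝ) : ℂ) := by
  have key : ∀ {N : Type} [CommMonoid N] (g : ZMod p → N),
      ∏ k ∈ univ.erase (0 : ZMod p), (if k ∈ Rs p then g k else 1) = ∏ k ∈ Rs p, g k := by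
    intro N _ g
    rw [TP.erase_eq, prod_union disj]
    have e1 : ∏ k ∈ Rs p, (if k ∈ Rs p then g k else 1) = ∏ k ∈ Rs p, g k :=
      prod_congr rfl fun k hk => by rw [if_pos hk]
    have e2 : ∏ k ∈ Ns p, (if k ∈ Rs p then g k else 1) = 1 := by
      apply prod_eq_one
      intro k hk
      rw [if_neg (fun h => Finset.disjoint_left.1 disj h hk)]
    rw [e1, e2, mul_one]
  have h := prod_norm m hm (fun k => if k ∈ Rs p then 1 - sc p k else 1) (by
    intro k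
    by_cases hk : k ∈ Rs p
    · rw [if_pos ((neg_mem_Rs h1 k).2 hk), if_pos hk, sc_conj]; simp
    · rw [if_neg (fun h => hk ((neg_mem_Rs h1 k).1 h)), if_neg hk]; simp)
  rw [key] at h
  rw [FR, h]
  congr 1
  rw [← key (fun k => ‖1 - sc p k‖)]
  refine prod_congr rfl fun k _ => ?_
  split_ifs <;> simp

lemma HX_int (m : ℕ) (x : ℤ) : ∃ d : ℤ, (d : ℂ) = (HX p m x).det := by
  refine ⟨(Matrix.of fun j k : Fin m => quadraticChar (ZMod p) ((((j : ℕ) : ZMod p)) + ((k : ℕ) : ZMod p)) + x).det, ?_⟩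
  have := (Int.castRingHom ℂ).map_det (Matrix.of fun j k : Fin m => quadraticChar (ZMod p) ((((j : ℕ) : ZMod p)) + ((k : ℕ) : ZMod p)) + x)
  rw [eq_intCast] at this
  rw [this]
  congr 1
  ext j k
  simp [HX, chi_apply]

section one
variable (h1 : p % 4 = 1) (m : ℕ) (hm : p = 2 * m + 1)
include h1 hm

lemma quad_two : ((quadraticChar (ZMod p) 2 : ℤ) : ℂ) = (-1) ^ (m / 2) := by
  have hp2 : p ≠ 2 := by rintro rfl; omega
  have h2 : legendreSym p 2 = quadraticChar (ZMod p) 2 := by simp [legendreSym]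
  rw [← h2, legendreSym.at_two hp2, ZMod.χ₈_nat_eq_if_mod_eight, if_neg (by omega)]
  rcases Nat.even_or_odd (m / 2) with h | h
  · rw [h.neg_one_pow, if_pos]
    · simp
    · obtain ⟨t, ht⟩ := h
      omega
  · rw [h.neg_one_pow, if_neg]
    · simp
    · obtain ⟨t, ht⟩ := h
      omega

theorem HX_one (hm2 : 2 ≤ m) (H : ℝ) (hH : 0 < H)
    (hR : ∏ j ∈ Rs p, ‖1 - sc p j‖ = Real.sqrt p * H⁻¹) (a b : ℚ) (hab : H = a + b * Real.sqrt p) (x : ℂ) :
    (HX p m x).det = ((quadraticChar (ZMod p) 2 : ℤ) : ℂ) * 2 ^ (m - 1) * (2 * (b : ℂ) - a) +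
      ((quadraticChar (ZMod p) 2 : ℤ) : ℂ) * 2 ^ (m - 1) * (p * (b : ℂ) - 2 * a) * x := by
  have hp : p.Prime := Fact.out
  obtain ⟨n, hn⟩ : ∃ n, m = 2 * n := ⟨m / 2, by omega⟩
  have hmn : m / 2 = n := by omega
  rw [quad_two h1 m hm, hmn]
  obtain ⟨c1, c2⟩ := counts m hm hm2
  have hq : quadraticChar (ZMod p) (-1) = 1 := by
    rw [quadraticChar_neg_one (by rw [ZMod.ringChar_zmod_n]; rintro rfl; omega), ZMod.card]
    exact ZMod.χ₄_nat_one_mod_four h1
  rw [hq] at c2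
  have n1 : ((Ns p).filter (fun t => t - 1 ∈ Rs p)).card = n := by omega
  have n2 : ((Ns p).filter (fun t => ¬ (t - 1 ∈ Rs p))).card = n := by omega
  have hcard := (card_eq m hm hm2).1
  have hres := Res_eq m hm hm2
  rw [n1, n2, ← mul_pow, FR_GN m hm hm2] at hres
  have hsq := det_sq m hm hm2 hcard
  have hsg : ((-1 : ℂ)) ^ (m * (m - 1) / 2) = (-1) ^ n := by
    have : m * (m - 1) / 2 = n * (m - 1) := by
      rw [hn, Nat.mul_assoc]
      exact Nat.mul_div_cancel_left _ (by norm_num)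
    rw [this, hn, mul_comm n, pow_mul, Odd.neg_one_pow (by
      refine ⟨n - 1, ?_⟩; omega)]
  have hpC := pC (p := p)
  have hm1 : ((-1 : ℂ)) ^ m = 1 := by rw [hn, pow_mul]; simp
  have hpn : (p : ℂ) ^ m = p ^ n * p ^ n := by rw [hn, two_mul, pow_add]
  rw [hres, hsg, hm1, one_mul, hpn] at hsq
  have hsq' : (-1) ^ n * (VV m hcard).det ^ 2 * FR p = (p : ℂ) ^ n :=
    mul_right_cancel₀ (pow_ne_zero n hpC) hsq
  have hs1 : ((-1 : ℂ) ^ n) * (-1) ^ n = 1 := by rw [← mul_pow]; simp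
  set τ : ℝ := Real.sqrt p with hτ
  have hta : ta p = (τ : ℂ) := g_eq h1
  have hp0 : (0 : ℝ) < p := by exact_mod_cast hp.pos
  have hτ0 : 0 < τ := Real.sqrt_pos.2 hp0
  have hττ : (τ : ℂ) ^ 2 = p := by
    rw [← Complex.ofReal_pow, hτ, Real.sq_sqrt hp0.le]; simp
  have hτC : (τ : ℂ) ≠ 0 := by exact_mod_cast hτ0.ne'
  have hHC : (H : ℂ) ≠ 0 := by exact_mod_cast hH.ne'
  have hFR : FR p = (τ : ℂ) * (H : ℂ)⁻¹ := by
    rw [FR_real h1 m hm, hR]; push_cast; rfl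
  have htam : ta p ^ m = (p : ℂ) ^ n := by rw [hta, hn, pow_mul, hττ]
  have h2m : (2 : ℂ) ^ m = 2 * 2 ^ (m - 1) := by rw [← pow_succ']; congr 1; omega
  -- the determinant
  have hdet : ∀ x : ℂ, 2 * (τ : ℂ) * (HX p m x).det = (-1) ^ n * 2 ^ (m - 1) *
      (((2 - τ) * H + (2 + τ) * (H : ℂ)⁻¹) + τ * x * ((2 + τ) * (H : ℂ)⁻¹ - (2 - τ) * H)) := by
    intro x
    have h := det_formula m hm hm2 hcard x
    rw [htam, ← hsq', hta, hFR, h2m] at h
    have hne : (-1 : ℂ) ^ n * (VV m hcard).det ^ 2 * ((τ : ℂ) * (H : ℂ)⁻¹) ≠ 0 := by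
      rw [← hFR, hsq']; exact pow_ne_zero n hpC
    have hV : (VV m hcard).det ^ 2 ≠ 0 := by
      intro h0; rw [h0] at hne; simp at hne
    have hs0 : (-1 : ℂ) ^ n ≠ 0 := by
      intro h0; rw [h0] at hne; simp at hne
    have h5 : (-1) ^ n * ((τ : ℂ) * (H : ℂ)⁻¹) * (HX p m x).det = (2 * 2 ^ (m - 1) *
      ((1 + (1 + (τ : ℂ) * x) * (((τ : ℂ) * (H : ℂ)⁻¹) ^ 2 * (1 + τ) / p - 1) / 2) * (1 - τ / 2) +
        (1 + τ * x) * ((τ : ℂ) * (H : ℂ)⁻¹) ^ 2 * (τ : ℂ) ^ 2 / (4 * p))) := by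
      apply mul_left_cancel₀ hV
      linear_combination h
    have h6 : ((τ : ℂ) * (H : ℂ)⁻¹) ^ 2 = p * (H : ℂ)⁻¹ ^ 2 := by rw [mul_pow, hττ]
    rw [h6, hττ] at h5
    have h7 : (τ : ℂ) * (HX p m x).det = (-1) ^ n * (2 * 2 ^ (m - 1) *
      ((1 + (1 + (τ : ℂ) * x) * ((H : ℂ)⁻¹ ^ 2 * (1 + τ) - 1) / 2) * (1 - τ / 2) +
        (1 + τ * x) * (p * (H : ℂ)⁻¹ ^ 2) / 4)) * H := by
      have h8 : (p * (H : ℂ)⁻¹ ^ 2) * (1 + τ) / p = (H : ℂ)⁻¹ ^ 2 * (1 + τ) := by field_simp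
      have h9 : (1 + (τ : ℂ) * x) * (p * (H : ℂ)⁻¹ ^ 2) * p / (4 * p) = (1 + τ * x) * (p * (H : ℂ)⁻¹ ^ 2) / 4 := by
        field_simp
      rw [h8, h9] at h5
      rw [← h5]
      field_simp
      linear_combination (-(HX p m x).det) * hs1
    have h10 : 2 * (τ : ℂ) * (HX p m x).det = 2 * ((τ : ℂ) * (HX p m x).det) := by ring
    rw [h10, h7, ← hττ]
    field_simp
    ring
  obtain ⟨A, hA⟩ := HX_int (p := p) m 0
  obtain ⟨B, hB⟩ := HX_int (p := p) m 1
  rw [Int.cast_zero] at hA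
  rw [Int.cast_one] at hB
  have d0 := hdet 0
  have d1 := hdet 1
  rw [← hA] at d0
  rw [← hB] at d1
  simp only [mul_zero, zero_mul, add_zero, mul_one] at d0 d1
  -- the real equation
  have h2ne : (2 : ℂ) ^ (m - 1) ≠ 0 := pow_ne_zero _ two_ne_zero
  set s : ℤ := (-1) ^ n with hs
  have hsC : ((-1 : ℂ)) ^ n = (s : ℂ) := by rw [hs]; push_cast; rfl
  have hsR : ((s : ℝ)) * s = 1 := by
    have : ((s : ℝ)) = (-1) ^ n := by rw [hs]; push_cast; rfl
    rw [this, ← mul_pow]; simp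
  have hreal : 2 * (2 : ℝ) ^ (m - 1) * ((2 - τ) * H) = s * (2 * τ * A - 2 * (B - A)) := by
    have e : ((2 * (2 : ℝ) ^ (m - 1) * ((2 - τ) * H) : ℝ) : ℂ) = ((s * (2 * τ * A - 2 * (B - A)) : ℝ) : ℂ) := by
      push_cast
      rw [hsC] at d0 d1 hs1
      apply mul_left_cancel₀ hτC
      linear_combination (-(τ : ℂ) * s - s) * d0 + s * d1 +
        (-(τ : ℂ) * 2 ^ (m - 1) * (2 - τ) * H * 2) * hs1 * 1 + 0 * hs1
    exact_mod_cast e
  have hττR : τ * τ = p := Real.mul_self_sqrt hp0.le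
  have hirr := irr hp (-(s * 2 * (B - A)) / (2 * 2 ^ (m - 1))) (s * 2 * A / (2 * 2 ^ (m - 1)))
    (2 * a - p * b) (2 * b - a) (by
      have h2R : (2 : ℝ) ^ (m - 1) ≠ 0 := pow_ne_zero _ two_ne_zero
      push_cast
      rw [← hτ]
      rw [hab] at hreal
      field_simp
      linear_combination (-1 / 2 : ℝ) * hreal + (2 : ℝ) ^ (m - 1) * (-(b : ℝ)) * hττR)
  obtain ⟨i1, i2⟩ := hirr
  have h2Q : (2 : ℚ) ^ (m - 1) ≠ 0 := pow_ne_zero _ two_ne_zero
  have hsQ : ((s : ℚ)) * s = 1 := by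
    have : ((s : ℚ)) = (-1) ^ n := by rw [hs]; push_cast; rfl
    rw [this, ← mul_pow]; simp
  have hAq : (A : ℚ) = s * 2 ^ (m - 1) * (2 * b - a) := by
    rw [← i2]
    field_simp
    linear_combination (-(A : ℚ)) * hsQ
  have hBq : (B : ℚ) - A = s * 2 ^ (m - 1) * (p * b - 2 * a) := by
    have : p * b - 2 * a = -(2 * a - p * b) := by ring
    rw [this, ← i1]
    field_simp
    linear_combination (A - (B : ℚ)) * hsQ
  have hAc : (A : ℂ) = s * 2 ^ (m - 1) * (2 * (b : ℂ) - a) := by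
    have := congrArg (fun q : ℚ => (q : ℂ)) hAq
    push_cast at this
    exact this
  have hBc : (B : ℂ) - A = s * 2 ^ (m - 1) * (p * (b : ℂ) - 2 * a) := by
    have := congrArg (fun q : ℚ => (q : ℂ)) hBq
    push_cast at this
    exact this
  have hlin : (HX p m x).det = A + (B - A) * x := by
    have h3 := hdet x
    apply mul_left_cancel₀ (mul_ne_zero two_ne_zero hτC)
    linear_combination h3 - (1 - x) * d0 - x * d1
  rw [hlin, hsC, hBc, hAc]

end one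

end Pool.Agent.T6.H7.LP
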