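import Mathlib
import Pool.Agent.T6.H7.LP.E

/-! The determinants `[χ(j+k) + x]` of order `(p-1)/2` for `p ≡ 3 (mod 4)`. -/

set_option autoImplicit false
set_option linter.unusedSectionVars false

namespace Pool.Agent.T6.H7.LP

open Finset Polynomial Matrix Pool.Agent.Helper184.Chapman Pool.Agent.R945 Pool.Agent.R945.TP

variable {p : ℕ} [Fact p.Prime]

section three
variable (h3 : p % 4 = 3) (m : ℕ) (hm : p = 2 * m + 1) (hm2 : 2 ≤ m)
include h3 hm hm2

lemma qneg : quadraticChar (ZMod p) (-1) = -1 := by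
  rw [quadraticChar_neg_one (by rw [ZMod.ringChar_zmod_n]; omega), ZMod.card]
  exact ZMod.χ₄_nat_three_mod_four h3

lemma GN_eq : GN p = - FR p := by
  have hn : (-1 : ZMod p) ∈ Ns p := by rw [mem_Ns]; exact qneg h3 m hm hm2
  have e1 : GN p = ∏ k ∈ Rs p, (1 - sc p (-1 * k)) := (NR hn (fun k => 1 - sc p k)).symm
  have e2 : ∏ k ∈ Rs p, sc p (-1 * k) = 1 := by
    rw [NR hn (fun k => sc p k), prod_zN m hm hm2]
  have e3 : ∀ k ∈ Rs p, (1 - sc p (-1 * k)) = sc p (-1 * k) * ((-1) * (1 - sc p k)) := by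
    intro k _
    have : sc p (-1 * k) * sc p k = 1 := by
      rw [← z_add]
      have : -1 * k + k = 0 := by ring
      rw [this, z_zero]
    linear_combination -this
  rw [e1, prod_congr rfl e3, prod_mul_distrib, prod_mul_distrib, e2, prod_const,
    (card_eq m hm hm2).1, FR, Odd.neg_one_pow (by rw [Nat.odd_iff]; omega)]
  ring

lemma FR_sq : FR p ^ 2 = -p := by
  have h1 := FR_GN m hm hm2
  rw [GN_eq h3 m hm hm2] at h1
  linear_combination -h1

lemma ta_sq : ta p ^ 2 = -p := by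
  have h := gsq (K := ℂ) (p := p) (by omega) two_ne_zero (sc p) sc_prim
  have he : et p ℂ = -1 := by rw [et, chi_apply, qneg h3 m hm hm2]; simp
  rw [he] at h
  rw [ta]
  linear_combination h

theorem HX_three (x : ℂ) : (HX p m x).det = - 2 ^ (m - 1) + (- 2 ^ m) * x := by
  have hp : p.Prime := Fact.out
  obtain ⟨n, hn⟩ : ∃ n, m = 2 * n + 1 := ⟨m / 2, by omega⟩
  obtain ⟨c1, c2⟩ := counts m hm hm2
  rw [qneg h3 m hm hm2] at c2
  have n1 : ((Ns p).filter (fun t => t - 1 ∈ Rs p)).card = n + 1 := by omega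
  have n2 : ((Ns p).filter (fun t => ¬ (t - 1 ∈ Rs p))).card = n := by omega
  have hcard := (card_eq m hm hm2).1
  have hres := Res_eq m hm hm2
  rw [n1, n2, pow_succ, mul_right_comm, ← mul_pow, FR_GN m hm hm2] at hres
  have hsq := det_sq m hm hm2 hcard
  have hsg : ((-1 : ℂ)) ^ (m * (m - 1) / 2) = (-1) ^ n := by
    have : m * (m - 1) / 2 = n * m := by
      have : m - 1 = 2 * n := by omega
      rw [this, mul_comm m, Nat.mul_assoc]
      exact Nat.mul_div_cancel_left _ (by norm_num)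
    rw [this, hn, mul_comm n, pow_mul, Odd.neg_one_pow ⟨n, rfl⟩]
  have hpC := pC (p := p)
  have hm1 : ((-1 : ℂ)) ^ m = -1 := by rw [hn]; exact Odd.neg_one_pow ⟨n, rfl⟩
  have hpn : (p : ℂ) ^ m = p * (p ^ n * p ^ n) := by rw [hn, pow_succ, two_mul, pow_add]; ring
  have hFR := FR_sq h3 m hm hm2
  have hta := ta_sq h3 m hm hm2
  have hs1 : ((-1 : ℂ) ^ n) * (-1) ^ n = 1 := by rw [← mul_pow]; simp
  rw [hres, hsg, hm1, hpn] at hsq
  have hsq' : (VV m hcard).det ^ 2 = (-1) ^ n * (p : ℂ) ^ n := by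
    have h5 : (-1) ^ n * (VV m hcard).det ^ 2 = (p : ℂ) ^ n := by
      apply mul_right_cancel₀ (mul_ne_zero hpC (pow_ne_zero n hpC))
      linear_combination hsq + (-1) ^ n * (VV m hcard).det ^ 2 * (p : ℂ) ^ n * hFR
    rw [← h5]
    linear_combination (-(VV m hcard).det ^ 2) * hs1
  have htam : ta p ^ m = (-1) ^ n * (p : ℂ) ^ n * ta p := by
    rw [hn, pow_succ, pow_mul, hta, ← mul_pow]; ring
  have h2m : (2 : ℂ) ^ m = 2 * 2 ^ (m - 1) := by rw [← pow_succ']; congr 1; omega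
  have h := det_formula m hm hm2 hcard x
  rw [htam, hsq', hFR, hta] at h
  have hta0 : ta p ≠ 0 := by
    intro h0
    rw [h0] at hta
    apply hpC
    linear_combination hta
  have hne : (-1 : ℂ) ^ n * (p : ℂ) ^ n ≠ 0 := by
    apply mul_ne_zero _ (pow_ne_zero n hpC)
    intro h0; rw [h0] at hs1; simp at hs1
  have h6 : ta p * (HX p m x).det = 2 ^ m * ((1 + (1 + ta p * x) * (-p * (1 + ta p) / p - 1) / 2) * (1 - ta p / 2) +
        (1 + ta p * x) * -p * -p / (4 * p)) := by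
    apply mul_left_cancel₀ hne
    linear_combination h
  apply mul_left_cancel₀ hta0
  rw [h6, h2m]
  field_simp
  linear_combination 4 * (1 + ta p * x) * hta

end three

end Pool.Agent.T6.H7.LP
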